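import Pool.Agent.TH879.KZ.Int

set_option autoImplicit false

open Filter Topology

namespace Pool.Agent.TH879.KZ

variable {A : Type*} [AddCommGroup A]

/-- a mean on bounded functions which is invariant under and supported by `H` -/
structure Mean2 (H : AddSubgroup A) (M : (A → ℝ) → ℝ) : Prop where
  add : ∀ g h : A → ℝ, (∃ C, ∀ x, |g x| ≤ C) → (∃ C, ∀ x, |h x| ≤ C) →
    M (fun x => g x + h x) = M g + M h
  const : ∀ (g : A → ℝ) (a : ℝ), (∀ x ∈ H, g x = a) → M g = a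
  shift : ∀ (g : A → ℝ), (∃ C, ∀ x, |g x| ≤ C) → ∀ h ∈ H, M (fun x => g (x + h)) = M g
  bdd : ∀ (g : A → ℝ) (C : ℝ), (∀ x, |g x| ≤ C) → |M g| ≤ C

/-- every subgroup of an abelian group carries an invariant mean -/
theorem exists_mean2 (H : AddSubgroup A) : ∃ M : (A → ℝ) → ℝ, Mean2 H M := by
  classical
  set F : Filter (Finset H × ℕ) := atTop with hF
  set U : Ultrafilter (Finset H × ℕ) := Ultrafilter.of F with hU
  have hUF : (U : Filter (Finset H × ℕ)) ≤ F := Ultrafilter.of_le F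
  set w : (A → ℝ) → (Finset H × ℕ) → ℝ :=
    fun g i => O i.2 (i.1.toList.map (fun h : H => (h : A))) g 0 with hw
  have hmem : ∀ i : Finset H × ℕ, ∀ h ∈ i.1.toList.map (fun h : H => (h : A)), h ∈ H := by
    intro i h hh
    obtain ⟨u, _, rfl⟩ := List.mem_map.mp hh
    exact u.2
  have hlim : ∀ g : A → ℝ, (∃ C, ∀ x, |g x| ≤ C) →
      Tendsto (w g) U (𝓝 (limUnder (U : Filter (Finset H × ℕ)) (w g))) := by
    rintro g ⟨C, hC⟩
    refine tendsto_nhds_limUnder ?_
    have hcomp : IsCompact (Set.Icc (-C) C) := isCompact_Icc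
    have : (U.map (w g) : Filter ℝ) ≤ 𝓟 (Set.Icc (-C) C) := by
      rw [le_principal_iff]
      refine Filter.mem_map.mpr (Filter.univ_mem' (fun i => ?_))
      exact abs_le.mp (O_bdd i.2 _ hC 0)
    obtain ⟨a, _, ha⟩ := hcomp.ultrafilter_le_nhds (U.map (w g)) this
    exact ⟨a, ha⟩
  refine ⟨fun g => limUnder (U : Filter (Finset H × ℕ)) (w g), ?_, ?_, ?_, ?_⟩
  · intro g h hg hh
    have h1 : w (fun x => g x + h x) = fun i => w g i + w h i := by
      funext i
      exact congrFun (O_add i.2 _ g h) 0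
    show limUnder (U : Filter (Finset H × ℕ)) (w (fun x => g x + h x)) = _
    rw [h1]
    exact ((hlim g hg).add (hlim h hh)).limUnder_eq
  · intro g a hg
    have h1 : w g = fun _ => a := by
      funext i
      exact O_const i.2 _ (hmem i) hg 0 H.zero_mem
    show limUnder (U : Filter (Finset H × ℕ)) (w g) = _
    rw [h1]
    exact tendsto_const_nhds.limUnder_eq
  · rintro g ⟨C, hC⟩ h hh
    show limUnder (U : Filter (Finset H × ℕ)) (w (fun x => g (x + h))) = _
    have hsh : ∃ C, ∀ x, |g (x + h)| ≤ C := ⟨C, fun x => hC _⟩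
    have hng : ∃ C, ∀ x, |-g x| ≤ C := ⟨C, fun x => by rw [abs_neg]; exact hC x⟩
    have h1 : ∀ i, w (fun x => g (x + h) + -g x) i = w (fun x => g (x + h)) i + w (fun x => -g x) i :=
      fun i => congrFun (O_add i.2 _ _ _) 0
    have h2 : ∀ i, w g i + w (fun x => -g x) i = 0 := by
      intro i
      have := congrFun (O_add i.2 (i.1.toList.map (fun h : H => (h : A))) g (fun x => -g x)) 0
      have h3 : O i.2 (i.1.toList.map (fun h : H => (h : A))) (fun x => g x + -g x) 0 = 0 :=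
        O_const i.2 (H := H) _ (hmem i) (fun x _ => by ring) 0 H.zero_mem
      rw [h3] at this
      exact this.symm
    have h4 : Tendsto (fun i => w (fun x => g (x + h)) i - w g i) U (𝓝 0) := by
      refine squeeze_zero_norm' (a := fun i : Finset H × ℕ => 2 * C / ((i.2 : ℝ) + 1)) ?_ ?_
      · have : ∀ᶠ i in F, (({(⟨h, hh⟩ : H)} : Finset H), 0) ≤ i := eventually_ge_atTop _
        filter_upwards [hUF this] with i hi
        have hin : h ∈ i.1.toList.map (fun h : H => (h : A)) := by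
          refine List.mem_map.mpr ⟨⟨h, hh⟩, ?_, rfl⟩
          rw [Finset.mem_toList]
          exact hi.1 (Finset.mem_singleton_self _)
        have := O_diff i.2 _ hin hC 0
        rw [Real.norm_eq_abs]
        have h5 : w (fun x => g (x + h)) i - w g i = w (fun x => g (x + h) + -g x) i := by
          rw [h1]; linarith [h2 i]
        rw [h5]
        exact this
      · have h6 : Tendsto (fun i : Finset H × ℕ => i.2) F atTop := by
          rw [hF, ← prod_atTop_atTop_eq]; exact tendsto_snd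
        have h7 : Tendsto (fun n : ℕ => 2 * C / ((n : ℝ) + 1)) atTop (𝓝 0) := by
          have := (tendsto_one_div_add_atTop_nhds_zero_nat (𝕜 := ℝ)).const_mul (2 * C)
          simpa [div_eq_mul_inv] using this
        exact (h7.comp h6).mono_left hUF
    have h8 := h4.add (hlim g ⟨C, hC⟩)
    rw [zero_add] at h8
    refine (h8.congr (fun i => ?_)).limUnder_eq
    ring
  · intro g C hg
    have hl := hlim g ⟨C, hg⟩
    have : ∀ i, w g i ∈ Set.Icc (-C : ℝ) C := fun i => abs_le.mp (O_bdd i.2 _ hg 0)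
    exact abs_le.mpr (isClosed_Icc.mem_of_tendsto hl (Filter.Eventually.of_forall this))


/-- steps along which the circle valued map `f` moves by at least `ρ` -/
def T2 (f : A → AddCircle (1 : ℝ)) (ρ : ℝ) : Set A :=
  {s | ∀ x, ∃ t : ℝ, ρ ≤ t ∧ t ≤ 1 - ρ ∧ f (x + s) - f x = ((t : ℝ) : AddCircle (1 : ℝ))}

open scoped Classical in
/-- the increment minus one half -/
noncomputable def d (f : A → AddCircle (1 : ℝ)) (ρ : ℝ) (x s : A) : ℝ :=
  if h : ∃ t : ℝ, ρ ≤ t ∧ t ≤ 1 - ρ ∧ f (x + s) - f x = ((t : ℝ) : AddCircle (1 : ℝ)) then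
    h.choose - 1 / 2 else 0

variable {f : A → AddCircle (1 : ℝ)} {ρ : ℝ}

lemma d_coe {s : A} (hs : s ∈ T2 f ρ) (x : A) :
    ((d f ρ x s + 1 / 2 : ℝ) : AddCircle (1 : ℝ)) = f (x + s) - f x := by
  have h := hs x
  unfold d
  rw [dif_pos h, sub_add_cancel]
  exact h.choose_spec.2.2.symm

lemma d_abs (hρ : ρ ≤ 1 / 2) (x s : A) : |d f ρ x s| ≤ 1 / 2 - ρ := by
  unfold d
  split_ifs with h
  · have := h.choose_spec
    rw [abs_le]; constructor <;> linarith [this.1, this.2.1]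
  · rw [abs_zero]; linarith

lemma T2_neg {s : A} (hs : s ∈ T2 f ρ) : -s ∈ T2 f ρ := by
  intro x
  obtain ⟨t, h1, h2, h3⟩ := hs (x + -s)
  rw [neg_add_cancel_right] at h3
  refine ⟨1 - t, by linarith, by linarith, ?_⟩
  have h4 : f (x + -s) - f x = -((t : ℝ) : AddCircle (1 : ℝ)) := by rw [← h3]; abel
  rw [h4, eq_comm, ← sub_eq_zero, sub_neg_eq_add, ← AddCircle.coe_add, sub_add_cancel]
  exact_mod_cast int_coe 1

lemma small_int {y : ℝ} (h : ((y : ℝ) : AddCircle (1 : ℝ)) = 0) (hy : |y| < 1) : y = 0 := by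
  rw [AddCircle.coe_eq_zero_iff] at h
  obtain ⟨n, hn⟩ := h
  have hn' : (n : ℝ) = y := by simpa using hn
  rw [← hn'] at hy ⊢
  have h1 := (abs_lt.mp hy).1
  have h2 := (abs_lt.mp hy).2
  have h3 : -1 < n := by exact_mod_cast h1
  have h4 : n < 1 := by exact_mod_cast h2
  have : n = 0 := by omega
  rw [this]; simp

lemma square2 (hρ : 1 / 4 < ρ) (hρ2 : ρ ≤ 1 / 2) {s t : A} (hs : s ∈ T2 f ρ) (ht : t ∈ T2 f ρ)
    (x : A) : d f ρ x s + d f ρ (x + s) t = d f ρ x t + d f ρ (x + t) s := by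
  have h : (((d f ρ x s + d f ρ (x + s) t) - (d f ρ x t + d f ρ (x + t) s) : ℝ) :
      AddCircle (1 : ℝ)) = 0 := by
    have e : (d f ρ x s + d f ρ (x + s) t) - (d f ρ x t + d f ρ (x + t) s) =
        ((d f ρ x s + 1 / 2) + (d f ρ (x + s) t + 1 / 2)) -
          ((d f ρ x t + 1 / 2) + (d f ρ (x + t) s + 1 / 2)) := by ring
    rw [e, AddCircle.coe_sub, AddCircle.coe_add, AddCircle.coe_add (1 : ℝ) (d f ρ x t + 1 / 2),
      d_coe hs, d_coe ht, d_coe ht, d_coe hs, add_right_comm x t s]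
    abel
  have h1 := abs_le.mp (d_abs (f := f) hρ2 x s)
  have h2 := abs_le.mp (d_abs (f := f) hρ2 (x + s) t)
  have h3 := abs_le.mp (d_abs (f := f) hρ2 x t)
  have h4 := abs_le.mp (d_abs (f := f) hρ2 (x + t) s)
  have := small_int h (by rw [abs_lt]; constructor <;> linarith [h1.1, h1.2, h2.1, h2.2, h3.1,
    h3.2, h4.1, h4.2])
  linarith

/-- total increment along a word -/
noncomputable def J2 (f : A → AddCircle (1 : ℝ)) (ρ : ℝ) : A → List A → ℝ
  | _, [] => 0
  | x, s :: l => d f ρ x s + J2 f ρ (x + s) l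

lemma J2_coe (l : List A) : ∀ (_ : ∀ s ∈ l, s ∈ T2 f ρ) (x : A),
    ((J2 f ρ x l + l.length / 2 : ℝ) : AddCircle (1 : ℝ)) = f (x + l.sum) - f x := by
  induction l with
  | nil => intro _ x; simp [J2]
  | cons s l ih =>
    intro h x
    have hs := h s (by simp)
    simp only [J2, List.sum_cons, List.length_cons]
    have e : d f ρ x s + J2 f ρ (x + s) l + ((l.length + 1 : ℕ) : ℝ) / 2 =
        (d f ρ x s + 1 / 2) + (J2 f ρ (x + s) l + l.length / 2) := by push_cast; ring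
    rw [e, AddCircle.coe_add, d_coe hs, ih (fun t ht => h t (by simp [ht])), ← add_assoc]
    abel

lemma J2_abs (hρ : 0 ≤ ρ) (hρ2 : ρ ≤ 1 / 2) (l : List A) : ∀ x, |J2 f ρ x l| ≤ l.length := by
  induction l with
  | nil => intro x; simp [J2]
  | cons s l ih =>
    intro x
    simp only [J2, List.length_cons, Nat.cast_add, Nat.cast_one]
    refine (abs_add_le _ _).trans ?_
    linarith [ih (x + s), d_abs (f := f) hρ2 x s]

lemma J2_comm (hρ : 1 / 4 < ρ) (hρ2 : ρ ≤ 1 / 2) {s : A} (hs : s ∈ T2 f ρ) (l : List A) :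
    ∀ (_ : ∀ t ∈ l, t ∈ T2 f ρ) (x : A),
      J2 f ρ x l + d f ρ (x + l.sum) s = d f ρ x s + J2 f ρ (x + s) l := by
  induction l with
  | nil => intro _ x; simp [J2]
  | cons t l ih =>
    intro h x
    have ht := h t (by simp)
    have := ih (fun t ht => h t (by simp [ht])) (x + t)
    have h2 := square2 hρ hρ2 hs ht x
    simp only [J2, List.sum_cons, ← add_assoc] at this ⊢
    rw [add_right_comm x t s] at this
    linarith

lemma J2_const (hρ : 1 / 4 < ρ) (hρ2 : ρ ≤ 1 / 2) {l : List A} (hl : ∀ t ∈ l, t ∈ T2 f ρ)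
    (h0 : l.sum = 0) {h : A} (hh : h ∈ AddSubgroup.closure (T2 f ρ)) :
    ∀ x, J2 f ρ (x + h) l = J2 f ρ x l := by
  induction hh using AddSubgroup.closure_induction with
  | mem s hs =>
    intro x
    have := J2_comm hρ hρ2 hs l hl x
    rw [h0, add_zero] at this
    linarith
  | zero => intro x; rw [add_zero]
  | add a b _ _ ha hb => intro x; rw [← add_assoc, hb, ha]
  | neg a _ ha =>
    intro x
    have := ha (x + -a)
    rw [neg_add_cancel_right] at this
    exact this.symm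

/-- the lift of the value of the character -/
noncomputable def psi2 (f : A → AddCircle (1 : ℝ)) (ρ : ℝ) (M : (A → ℝ) → ℝ) (s : A) : ℝ :=
  M (fun x => d f ρ x s) + 1 / 2

variable {M : (A → ℝ) → ℝ}

lemma psi2_mem (hρ2 : ρ ≤ 1 / 2) (hM : Mean2 (AddSubgroup.closure (T2 f ρ)) M) (s : A) :
    ρ ≤ psi2 f ρ M s ∧ psi2 f ρ M s ≤ 1 - ρ := by
  have := abs_le.mp (hM.bdd (fun x => d f ρ x s) _ (fun x => d_abs (f := f) hρ2 x s))
  unfold psi2
  constructor <;> linarith [this.1, this.2]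

lemma M_J2 (hρ : 1 / 4 < ρ) (hρ2 : ρ ≤ 1 / 2) (hM : Mean2 (AddSubgroup.closure (T2 f ρ)) M)
    (l : List A) : ∀ (_ : ∀ t ∈ l, t ∈ T2 f ρ),
      (l.map (psi2 f ρ M)).sum = M (fun x => J2 f ρ x l) + l.length / 2 := by
  induction l with
  | nil =>
    intro _
    have : M (fun x => J2 f ρ x []) = 0 := hM.const _ _ (by simp [J2])
    rw [this]; simp
  | cons s l ih =>
    intro h
    have hs := h s (by simp)
    have h1 : M (fun x => J2 f ρ x (s :: l)) = M (fun x => d f ρ x s + J2 f ρ (x + s) l) := rfl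
    rw [h1, hM.add _ _ ⟨_, fun x => d_abs (f := f) hρ2 x s⟩
      ⟨l.length, fun x => J2_abs (by linarith) hρ2 l (x + s)⟩,
      hM.shift (fun x => J2 f ρ x l) ⟨l.length, fun x => J2_abs (by linarith) hρ2 l x⟩ s
        (AddSubgroup.subset_closure hs)]
    simp only [List.map_cons, List.sum_cons, List.length_cons]
    rw [ih (fun t ht => h t (by simp [ht]))]
    unfold psi2
    push_cast; ring

lemma closed_word2 (hρ : 1 / 4 < ρ) (hρ2 : ρ ≤ 1 / 2)
    (hM : Mean2 (AddSubgroup.closure (T2 f ρ)) M) {l : List A}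
    (hl : ∀ t ∈ l, t ∈ T2 f ρ) (h0 : l.sum = 0) :
    (((l.map (psi2 f ρ M)).sum : ℝ) : AddCircle (1 : ℝ)) = 0 := by
  rw [M_J2 hρ hρ2 hM l hl]
  have h1 : M (fun x => J2 f ρ x l) = J2 f ρ 0 l := by
    refine hM.const _ _ (fun x hx => ?_)
    have := J2_const hρ hρ2 hl h0 hx 0
    rwa [zero_add] at this
  rw [h1, J2_coe l hl 0, h0, add_zero, sub_self]

/-- the graph of the character -/
noncomputable def Gam2 (f : A → AddCircle (1 : ℝ)) (ρ : ℝ) (M : (A → ℝ) → ℝ) :
    AddSubgroup (A × AddCircle (1 : ℝ)) :=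
  AddSubgroup.closure {q | ∃ s ∈ T2 f ρ, q = (s, ((psi2 f ρ M s : ℝ) : AddCircle (1 : ℝ)))}

lemma Gam2_word (hρ : 1 / 4 < ρ) (hρ2 : ρ ≤ 1 / 2)
    (hM : Mean2 (AddSubgroup.closure (T2 f ρ)) M) {q : A × AddCircle (1 : ℝ)}
    (hq : q ∈ Gam2 f ρ M) : ∃ l : List A, (∀ t ∈ l, t ∈ T2 f ρ) ∧
      q = (l.sum, (((l.map (psi2 f ρ M)).sum : ℝ) : AddCircle (1 : ℝ))) := by
  unfold Gam2 at hq
  induction hq using AddSubgroup.closure_induction with
  | mem q hq =>
    obtain ⟨s, hs, rfl⟩ := hq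
    exact ⟨[s], by simpa using hs, by simp⟩
  | zero => exact ⟨[], by simp, by simp; rfl⟩
  | add a b _ _ ha hb =>
    obtain ⟨l, hl, rfl⟩ := ha
    obtain ⟨m, hm, rfl⟩ := hb
    refine ⟨l ++ m, ?_, ?_⟩
    · intro t ht
      rcases List.mem_append.mp ht with h | h
      exacts [hl t h, hm t h]
    · simp
  | neg a _ ha =>
    obtain ⟨l, hl, rfl⟩ := ha
    have hneg : ∀ t ∈ l.map (fun t => -t), t ∈ T2 f ρ := by
      intro t ht
      obtain ⟨u, hu, rfl⟩ := List.mem_map.mp ht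
      exact T2_neg (hl u hu)
    refine ⟨l.map (fun t => -t), hneg, ?_⟩
    have hsum : (l.map (fun t => -t)).sum = -l.sum := sum_map_neg l
    have hw : ((((l ++ l.map (fun t => -t)).map (psi2 f ρ M)).sum : ℝ) : AddCircle (1 : ℝ)) = 0 := by
      refine closed_word2 hρ hρ2 hM ?_ ?_
      · intro t ht
        rcases List.mem_append.mp ht with h | h
        exacts [hl t h, hneg t h]
      · rw [List.sum_append, hsum]; abel
    rw [List.map_append, List.sum_append] at hw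
    refine Prod.ext ?_ ?_
    · simp only [Prod.fst_neg]; rw [hsum]
    · simp only [Prod.snd_neg]
      rw [eq_comm, ← add_eq_zero_iff_eq_neg, add_comm, ← AddCircle.coe_add]
      exact hw

theorem core2 (hρ : 1 / 4 < ρ) (hρ2 : ρ ≤ 1 / 2) (hM : Mean2 (AddSubgroup.closure (T2 f ρ)) M) :
    ∃ φ : A →+ AddCircle (1 : ℝ), ∀ s ∈ T2 f ρ, ∃ t : ℝ, ρ ≤ t ∧ t ≤ 1 - ρ ∧
      φ s = ((t : ℝ) : AddCircle (1 : ℝ)) := by
  have hinj : Function.Injective
      ((AddMonoidHom.fst A (AddCircle (1 : ℝ))).comp (Gam2 f ρ M).subtype) := by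
    rw [injective_iff_map_eq_zero]
    rintro ⟨q, hq⟩ h
    obtain ⟨l, hl, hql⟩ := Gam2_word hρ hρ2 hM hq
    simp only [AddMonoidHom.comp_apply, AddSubgroup.subtype_apply, AddMonoidHom.coe_fst] at h
    have h0 : l.sum = 0 := by rw [hql] at h; exact h
    rw [closed_word2 hρ hρ2 hM hl h0, h0] at hql
    exact Subtype.ext hql
  obtain ⟨φ, hφ⟩ := (Module.Baer.of_divisible (AddCircle (1 : ℝ))).extension_property_addMonoidHom
    _ hinj ((AddMonoidHom.snd A (AddCircle (1 : ℝ))).comp (Gam2 f ρ M).subtype)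
  refine ⟨φ, fun s hs => ⟨psi2 f ρ M s, (psi2_mem hρ2 hM s).1, (psi2_mem hρ2 hM s).2, ?_⟩⟩
  have hmem : (s, ((psi2 f ρ M s : ℝ) : AddCircle (1 : ℝ))) ∈ Gam2 f ρ M :=
    AddSubgroup.subset_closure ⟨s, hs, rfl⟩
  exact DFunLike.congr_fun hφ ⟨_, hmem⟩

/-- the norm of a point of the circle is at least `ρ` iff it has a lift in `[ρ, 1-ρ]` -/
lemma norm_iff (hρ : 0 ≤ ρ) (z : AddCircle (1 : ℝ)) : ρ ≤ ‖z‖ ↔
    ∃ t : ℝ, ρ ≤ t ∧ t ≤ 1 - ρ ∧ z = ((t : ℝ) : AddCircle (1 : ℝ)) := by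
  obtain ⟨y, rfl⟩ := QuotientAddGroup.mk_surjective z
  have hn : ‖((y : ℝ) : AddCircle (1 : ℝ))‖ = |y - round y| := by
    rw [AddCircle.norm_eq]; simp
  change ρ ≤ ‖((y : ℝ) : AddCircle (1 : ℝ))‖ ↔ ∃ t : ℝ, ρ ≤ t ∧ t ≤ 1 - ρ ∧
    ((y : ℝ) : AddCircle (1 : ℝ)) = ((t : ℝ) : AddCircle (1 : ℝ))
  rw [hn]
  constructor
  · intro h
    have h2 := abs_sub_round y
    rcases le_total 0 (y - round y) with h0 | h0
    · rw [abs_of_nonneg h0] at h h2
      refine ⟨y - round y, h, by linarith, ?_⟩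
      rw [← sub_eq_zero, ← AddCircle.coe_sub, AddCircle.coe_eq_zero_iff]
      exact ⟨round y, by simp⟩
    · rw [abs_of_nonpos h0] at h h2
      refine ⟨y - round y + 1, by linarith, by linarith, ?_⟩
      rw [← sub_eq_zero, ← AddCircle.coe_sub, AddCircle.coe_eq_zero_iff]
      exact ⟨round y - 1, by simp only [zsmul_eq_mul, mul_one]; push_cast; ring⟩
  · rintro ⟨t, h1, h2, h⟩
    rw [← sub_eq_zero, ← AddCircle.coe_sub, AddCircle.coe_eq_zero_iff] at h
    obtain ⟨k, hk⟩ := h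
    have hk' : (k : ℝ) = y - t := by simpa using hk
    have hy : y - round y = t + ((k - round y : ℤ) : ℝ) := by push_cast; linarith
    rw [hy]
    by_contra hc
    push Not at hc
    rw [abs_lt] at hc
    set q : ℤ := k - round y
    have hA : (q : ℝ) < 0 := by linarith [hc.2]
    have hB : (-1 : ℝ) < q := by linarith [hc.1]
    have hA' : q < 0 := by exact_mod_cast hA
    have hB' : -1 < q := by exact_mod_cast hB
    omega

lemma norm_le_half (z : AddCircle (1 : ℝ)) : ‖z‖ ≤ 1 / 2 := by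
  obtain ⟨y, rfl⟩ := QuotientAddGroup.mk_surjective z
  have hn : ‖((y : ℝ) : AddCircle (1 : ℝ))‖ = |y - round y| := by
    rw [AddCircle.norm_eq]; simp
  change ‖((y : ℝ) : AddCircle (1 : ℝ))‖ ≤ 1 / 2
  rw [hn]
  exact abs_sub_round y

/-- **Circular colourings of Cayley graphs of abelian groups.** -/
theorem circ_iff (hρ : 1 / 4 < ρ) (S : Set A) :
    (∃ f : A → AddCircle (1 : ℝ), ∀ x, ∀ s ∈ S, ρ ≤ ‖f (x + s) - f x‖) ↔
      ∃ φ : A →+ AddCircle (1 : ℝ), ∀ s ∈ S, ρ ≤ ‖φ s‖ := by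
  constructor
  · rintro ⟨f, hf⟩
    by_cases hρ2 : ρ ≤ 1 / 2
    · obtain ⟨M, hM⟩ := exists_mean2 (AddSubgroup.closure (T2 f ρ))
      obtain ⟨φ, hφ⟩ := core2 hρ hρ2 hM
      refine ⟨φ, fun s hs => (norm_iff (by linarith) _).mpr (hφ s (fun x => ?_))⟩
      exact (norm_iff (by linarith) _).mp (hf x s hs)
    · refine ⟨0, fun s hs => ?_⟩
      exact absurd ((hf 0 s hs).trans (norm_le_half _)) hρ2
  · rintro ⟨φ, hφ⟩
    refine ⟨φ, fun x s hs => ?_⟩
    rw [map_add, add_sub_cancel_left]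
    exact hφ s hs

end Pool.Agent.TH879.KZ
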