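import Pool.Agent.TH879.KZ.Circ

set_option autoImplicit false

namespace Pool.Agent.TH879.KZ

lemma norm_mul_int (θ : ℝ) (n : ℤ) :
    ‖((θ * n : ℝ) : AddCircle (1 : ℝ))‖ = |θ * n - round (θ * n)| := by
  rw [AddCircle.norm_eq]; simp

theorem int_circ_iff {ρ : ℝ} (hρ : 1 / 4 < ρ) (S : Set ℤ) :
    (∃ f : ℤ → AddCircle (1 : ℝ), ∀ x, ∀ s ∈ S, ρ ≤ ‖f (x + s) - f x‖) ↔
      ∃ θ : ℝ, ∀ s ∈ S, ρ ≤ |θ * s - round (θ * s)| := by
  rw [circ_iff hρ]
  constructor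
  · rintro ⟨φ, hφ⟩
    obtain ⟨θ, hθ⟩ := hom_int φ
    refine ⟨θ, fun s hs => ?_⟩
    rw [← norm_mul_int, ← hθ]
    exact hφ s hs
  · rintro ⟨θ, hθ⟩
    refine ⟨(QuotientAddGroup.mk' (AddSubgroup.zmultiples (1 : ℝ))).comp
      ((AddMonoidHom.mulLeft θ).comp (Int.castAddHom ℝ)), fun s hs => ?_⟩
    have := hθ s hs
    rw [← norm_mul_int] at this
    exact this

theorem three_iff {A : Type*} [AddCommGroup A] (S : Set A) :
    (∃ f : A → Fin 3, ∀ x, ∀ s ∈ S, f x ≠ f (x + s)) ↔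
      ∃ φ : A →+ AddCircle (1 : ℝ), ∀ s ∈ S, 1 / 3 ≤ ‖φ s‖ := by
  rw [main_iff]
  refine exists_congr (fun φ => forall₂_congr (fun s _ => ?_))
  rw [norm_iff (by norm_num)]
  norm_num

/-- every character of `(ℤ/m)^n` is given by a vector -/
lemma char_eq {m n : ℕ} [NeZero m] (φ : (Fin n → ZMod m) →+ AddCircle (1 : ℝ)) :
    ∃ a : Fin n → ZMod m, ∀ x,
      φ x = ((((∑ i, a i * x i).val : ℝ) / m : ℝ) : AddCircle (1 : ℝ)) := by
  have hm : (0 : ℝ) < m := by exact_mod_cast Nat.pos_of_ne_zero (NeZero.ne m)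
  have key : ∀ a : Fin n → ZMod m, ∃ φ : (Fin n → ZMod m) →+ AddCircle (1 : ℝ),
      ∀ x, φ x = ((((∑ i, a i * x i).val : ℝ) / m : ℝ) : AddCircle (1 : ℝ)) := by
    intro a
    refine ⟨AddMonoidHom.mk' (fun x => ((((∑ i, a i * x i).val : ℝ) / m : ℝ) : AddCircle (1 : ℝ)))
      ?_, fun x => rfl⟩
    intro x y
    have h1 : ∑ i, a i * (x + y) i = ∑ i, a i * x i + ∑ i, a i * y i := by
      rw [← Finset.sum_add_distrib]
      exact Finset.sum_congr rfl (fun i _ => by simp [mul_add])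
    rw [h1, ← AddCircle.coe_add, ← sub_eq_zero, ← AddCircle.coe_sub, AddCircle.coe_eq_zero_iff]
    set u := ∑ i, a i * x i
    set v := ∑ i, a i * y i
    have h2 : (m : ℤ) ∣ ((u + v).val : ℤ) - (u.val + v.val) := by
      rw [← ZMod.intCast_zmod_eq_zero_iff_dvd]
      push_cast
      simp
    obtain ⟨k, hk⟩ := h2
    refine ⟨k, ?_⟩
    have hk' : ((u + v).val : ℝ) - (u.val + v.val) = m * k := by exact_mod_cast hk
    simp only [zsmul_eq_mul, mul_one]
    field_simp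
    linarith
  have hb : ∀ i : Fin n, ∃ k : ℤ, φ (Pi.single i 1) = (((k : ℝ) / m : ℝ) : AddCircle (1 : ℝ)) := by
    intro i
    obtain ⟨y, hy⟩ := QuotientAddGroup.mk_surjective (φ (Pi.single i 1))
    have h1 : m • φ (Pi.single i (1 : ZMod m)) = 0 := by
      rw [← map_nsmul]
      have : m • (Pi.single i (1 : ZMod m) : Fin n → ZMod m) = 0 := by
        funext j; simp
      rw [this, map_zero]
    have h2 : (((m : ℝ) * y : ℝ) : AddCircle (1 : ℝ)) = 0 := by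
      rw [← hy] at h1
      rw [← nsmul_eq_mul]
      exact h1
    rw [AddCircle.coe_eq_zero_iff] at h2
    obtain ⟨k, hk⟩ := h2
    refine ⟨k, ?_⟩
    have hk' : (k : ℝ) = m * y := by simpa using hk
    rw [← hy, hk', mul_div_cancel_left₀ _ hm.ne']
  choose k hk using hb
  obtain ⟨φ', hφ'⟩ := key (fun i => (k i : ZMod m))
  have heq : φ' = φ := by
    refine AddMonoidHom.functions_ext _ _ _ (fun i x => ?_)
    have hx : (Pi.single i x : Fin n → ZMod m) = x.val • Pi.single i 1 := by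
      funext j
      by_cases hj : j = i
      · subst hj; simp
      · simp [Pi.single_eq_of_ne hj]
    rw [hx, map_nsmul, map_nsmul]
    congr 1
    rw [hφ', hk]
    have hs1 : ∑ j, (k j : ZMod m) * (Pi.single i (1 : ZMod m) : Fin n → ZMod m) j
        = (k i : ZMod m) := by
      simp [Pi.single_apply]
    rw [hs1, ← sub_eq_zero, ← AddCircle.coe_sub, AddCircle.coe_eq_zero_iff]
    have h2 : (m : ℤ) ∣ (((k i : ZMod m)).val : ℤ) - k i := by
      rw [← ZMod.intCast_zmod_eq_zero_iff_dvd]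
      push_cast
      simp
    obtain ⟨q, hq⟩ := h2
    refine ⟨q, ?_⟩
    have hq' : (((k i : ZMod m)).val : ℝ) - k i = m * q := by exact_mod_cast hq
    simp only [zsmul_eq_mul, mul_one]
    field_simp
    linarith
  exact ⟨fun i => (k i : ZMod m), fun x => by rw [← heq, hφ']⟩

/-- circular colourings of Cayley graphs of `(ℤ/m)^n` -/
theorem zmod_circ {m n : ℕ} [NeZero m] {ρ : ℝ} (hρ : 1 / 4 < ρ) (S : Set (Fin n → ZMod m))
    (h : ∃ f : (Fin n → ZMod m) → AddCircle (1 : ℝ), ∀ x, ∀ s ∈ S, ρ ≤ ‖f (x + s) - f x‖) :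
    ∃ a : Fin n → ZMod m, ∀ s ∈ S,
      ρ * m ≤ (∑ i, a i * s i).val ∧ ((∑ i, a i * s i).val : ℝ) ≤ (1 - ρ) * m := by
  have hm : (0 : ℝ) < m := by exact_mod_cast Nat.pos_of_ne_zero (NeZero.ne m)
  obtain ⟨φ, hφ⟩ := (circ_iff hρ S).mp h
  obtain ⟨a, ha⟩ := char_eq φ
  refine ⟨a, fun s hs => ?_⟩
  obtain ⟨t, ht1, ht2, ht⟩ := (norm_iff (by linarith) _).mp (hφ s hs)
  rw [ha, ← sub_eq_zero, ← AddCircle.coe_sub, AddCircle.coe_eq_zero_iff] at ht
  obtain ⟨q, hq⟩ := ht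
  set w := (∑ i, a i * s i).val with hw
  have hw1 : (w : ℝ) / m < 1 := by
    rw [div_lt_one hm]; exact_mod_cast ZMod.val_lt _
  have hw0 : (0 : ℝ) ≤ (w : ℝ) / m := by positivity
  have hq' : (q : ℝ) = (w : ℝ) / m - t := by simpa using hq
  have hA : (q : ℝ) < 1 := by rw [hq']; linarith
  have hB : (-1 : ℝ) < q := by rw [hq']; linarith
  have hA' : q < 1 := by exact_mod_cast hA
  have hB' : -1 < q := by exact_mod_cast hB
  have hq0 : q = 0 := by omega
  rw [hq0] at hq'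
  have htw : t = (w : ℝ) / m := by push_cast at hq'; linarith
  rw [htw] at ht1 ht2
  exact ⟨(le_div_iff₀ hm).mp ht1, (div_le_iff₀ hm).mp ht2⟩

end Pool.Agent.TH879.KZ
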