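import Mathlib

set_option autoImplicit false

namespace Pool.Agent.TH879.KZ

variable {A : Type*} [AddCommGroup A]

/-- differences which are never monochromatic -/
def T (f : A → ZMod 3) : Set A := {s | ∀ x, f (x + s) ≠ f x}

/-- increment of the colour along a step -/
def c (f : A → ZMod 3) (x s : A) : ℤ := if f (x + s) - f x = 1 then 1 else -1

lemma c_cases (f : A → ZMod 3) (x s : A) : c f x s = 1 ∨ c f x s = -1 := by
  unfold c; split_ifs <;> simp

lemma z3 : ∀ a : ZMod 3, a ≠ 0 → a ≠ 1 → a = -1 := by decide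

lemma c_cast {f : A → ZMod 3} {s : A} (hs : s ∈ T f) (x : A) :
    ((c f x s : ℤ) : ZMod 3) = f (x + s) - f x := by
  unfold c
  split_ifs with h
  · simp [h]
  · have h0 : f (x + s) - f x ≠ 0 := sub_ne_zero.mpr (hs x)
    rw [z3 _ h0 h]; simp

lemma T_neg {f : A → ZMod 3} {s : A} (hs : s ∈ T f) : -s ∈ T f := by
  intro x h
  have := hs (x + -s)
  rw [neg_add_cancel_right] at this
  exact this h.symm

lemma square {f : A → ZMod 3} {s t : A} (hs : s ∈ T f) (ht : t ∈ T f) (x : A) :
    c f x s + c f (x + s) t = c f x t + c f (x + t) s := by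
  have h : ((c f x s + c f (x + s) t - (c f x t + c f (x + t) s) : ℤ) : ZMod 3) = 0 := by
    push_cast
    rw [c_cast hs, c_cast ht, c_cast ht, c_cast hs, add_right_comm x t s]
    ring
  have h3 := (ZMod.intCast_zmod_eq_zero_iff_dvd _ 3).mp h
  rcases c_cases f x s with h1 | h1 <;> rcases c_cases f (x + s) t with h2 | h2 <;>
    rcases c_cases f x t with h4 | h4 <;> rcases c_cases f (x + t) s with h5 | h5 <;>
    rw [h1, h2, h4, h5] at h3 ⊢ <;> omega

/-- total increment along a word -/
def J (f : A → ZMod 3) : A → List A → ℤ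
  | _, [] => 0
  | x, s :: l => c f x s + J f (x + s) l

lemma J_cast {f : A → ZMod 3} (l : List A) : ∀ (_ : ∀ s ∈ l, s ∈ T f) (x : A),
    ((J f x l : ℤ) : ZMod 3) = f (x + l.sum) - f x := by
  induction l with
  | nil => intro _ x; simp [J]
  | cons s l ih =>
    intro h x
    have hs := h s (by simp)
    simp only [J, Int.cast_add, List.sum_cons]
    rw [c_cast hs, ih (fun t ht => h t (by simp [ht])), ← add_assoc]
    ring

lemma J_par (f : A → ZMod 3) (l : List A) : ∀ x, ∃ k : ℤ, J f x l = l.length + 2 * k := by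
  induction l with
  | nil => intro x; exact ⟨0, by simp [J]⟩
  | cons s l ih =>
    intro x
    obtain ⟨k, hk⟩ := ih (x + s)
    rcases c_cases f x s with h | h
    · exact ⟨k, by simp only [J, h, hk, List.length_cons]; push_cast; ring⟩
    · exact ⟨k - 1, by simp only [J, h, hk, List.length_cons]; push_cast; ring⟩

lemma J_abs (f : A → ZMod 3) (l : List A) : ∀ x, |((J f x l : ℤ) : ℝ)| ≤ l.length := by
  induction l with
  | nil => intro x; simp [J]
  | cons s l ih =>
    intro x
    simp only [J, Int.cast_add, List.length_cons, Nat.cast_add, Nat.cast_one]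
    refine (abs_add_le _ _).trans ?_
    have h1 : |((c f x s : ℤ) : ℝ)| ≤ 1 := by
      rcases c_cases f x s with h | h <;> rw [h] <;> simp
    linarith [ih (x + s)]

lemma J_comm {f : A → ZMod 3} {s : A} (hs : s ∈ T f) (l : List A) :
    ∀ (_ : ∀ t ∈ l, t ∈ T f) (x : A),
      J f x l + c f (x + l.sum) s = c f x s + J f (x + s) l := by
  induction l with
  | nil => intro _ x; simp [J]
  | cons t l ih =>
    intro h x
    have ht := h t (by simp)
    have := ih (fun t ht => h t (by simp [ht])) (x + t)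
    have h2 := square hs ht x
    simp only [J, List.sum_cons, ← add_assoc] at this ⊢
    rw [add_right_comm x t s] at this
    linarith

lemma J_const {f : A → ZMod 3} {l : List A} (hl : ∀ t ∈ l, t ∈ T f) (h0 : l.sum = 0)
    {h : A} (hh : h ∈ AddSubgroup.closure (T f)) : ∀ x, J f (x + h) l = J f x l := by
  induction hh using AddSubgroup.closure_induction with
  | mem s hs =>
    intro x
    have := J_comm hs l hl x
    rw [h0, add_zero] at this
    linarith
  | zero => intro x; rw [add_zero]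
  | add a b _ _ ha hb => intro x; rw [← add_assoc, hb, ha]
  | neg a _ ha =>
    intro x
    have := ha (x + -a)
    rw [neg_add_cancel_right] at this
    exact this.symm

/-- a mean on bounded functions which is invariant under and supported by `H` -/
structure Mean (H : AddSubgroup A) (M : (A → ℝ) → ℝ) : Prop where
  add : ∀ g h : A → ℝ, (∃ C, ∀ x, |g x| ≤ C) → (∃ C, ∀ x, |h x| ≤ C) →
    M (fun x => g x + h x) = M g + M h
  const : ∀ (g : A → ℝ) (a : ℝ), (∀ x ∈ H, g x = a) → M g = a
  shift : ∀ (g : A → ℝ), (∃ C, ∀ x, |g x| ≤ C) → ∀ h ∈ H, M (fun x => g (x + h)) = M g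
  bdd : ∀ g : A → ℝ, (∀ x, |g x| ≤ 1) → |M g| ≤ 1

/-- the mean increment -/
noncomputable def r (f : A → ZMod 3) (M : (A → ℝ) → ℝ) (s : A) : ℝ := M (fun x => (c f x s : ℝ))

lemma c_abs (f : A → ZMod 3) (x s : A) : |((c f x s : ℤ) : ℝ)| ≤ 1 := by
  rcases c_cases f x s with h | h <;> rw [h] <;> simp

variable {f : A → ZMod 3} {M : (A → ℝ) → ℝ}

lemma M_J (hM : Mean (AddSubgroup.closure (T f)) M) (l : List A) :
    ∀ (_ : ∀ t ∈ l, t ∈ T f), M (fun x => (J f x l : ℝ)) = (l.map (r f M)).sum := by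
  induction l with
  | nil => intro _; simp only [J, List.map_nil, List.sum_nil]; exact hM.const _ _ (by simp)
  | cons s l ih =>
    intro h
    have hs := h s (by simp)
    have h1 : M (fun x => (J f x (s :: l) : ℝ)) =
        M (fun x => (c f x s : ℝ) + (J f (x + s) l : ℝ)) := by
      congr 1; funext x; simp [J]
    rw [h1, hM.add _ _ ⟨1, fun x => c_abs f x s⟩ ⟨l.length, fun x => J_abs f l (x + s)⟩,
      hM.shift (fun x => (J f x l : ℝ)) ⟨l.length, fun x => J_abs f l x⟩ s
        (AddSubgroup.subset_closure hs), ih (fun t ht => h t (by simp [ht]))]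
    simp [r]

/-- the lift of the value of the character -/
noncomputable def psi (f : A → ZMod 3) (M : (A → ℝ) → ℝ) (s : A) : ℝ := (r f M s / 3 + 1) / 2

lemma psi_mem (hM : Mean (AddSubgroup.closure (T f)) M) (s : A) :
    1 / 3 ≤ psi f M s ∧ psi f M s ≤ 2 / 3 := by
  have := abs_le.mp (hM.bdd (fun x => (c f x s : ℝ)) (fun x => c_abs f x s))
  unfold psi r
  constructor <;> linarith [this.1, this.2]

lemma sum_psi (l : List A) : (l.map (psi f M)).sum = ((l.map (r f M)).sum / 3 + l.length) / 2 := by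
  induction l with
  | nil => simp
  | cons s l ih =>
    simp only [List.map_cons, List.sum_cons, List.length_cons, ih, psi]
    push_cast; ring

lemma closed_word (hM : Mean (AddSubgroup.closure (T f)) M) {l : List A}
    (hl : ∀ t ∈ l, t ∈ T f) (h0 : l.sum = 0) : ∃ k : ℤ, (l.map (psi f M)).sum = k := by
  have h1 : (l.map (r f M)).sum = (J f 0 l : ℝ) := by
    rw [← M_J hM l hl]
    refine hM.const _ _ (fun x hx => ?_)
    have := J_const hl h0 hx 0
    rw [zero_add] at this
    rw [this]
  have h3 : (3 : ℤ) ∣ J f 0 l := by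
    have := J_cast l hl 0
    rw [h0, add_zero, sub_self] at this
    exact (ZMod.intCast_zmod_eq_zero_iff_dvd _ 3).mp this
  obtain ⟨k, hk⟩ := J_par f l 0
  obtain ⟨m, hm⟩ := h3
  have h2 : ∃ q : ℤ, m + l.length = 2 * q := ⟨m + l.length - (m + l.length) / 2, by omega⟩
  obtain ⟨q, hq⟩ := h2
  refine ⟨q, ?_⟩
  rw [sum_psi, h1, hm]
  have : (m : ℝ) + l.length = 2 * q := by exact_mod_cast hq
  push_cast
  linarith

/-- the graph of the character -/
noncomputable def Gam (f : A → ZMod 3) (M : (A → ℝ) → ℝ) : AddSubgroup (A × AddCircle (1 : ℝ)) :=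
  AddSubgroup.closure {q | ∃ s ∈ T f, q = (s, ((psi f M s : ℝ) : AddCircle (1 : ℝ)))}

lemma int_coe (k : ℤ) : (((k : ℝ)) : AddCircle (1 : ℝ)) = 0 := by
  rw [AddCircle.coe_eq_zero_iff]
  exact ⟨k, by simp⟩

lemma sum_map_neg (l : List A) : (l.map (fun t => -t)).sum = -l.sum := by
  induction l with
  | nil => simp
  | cons s l ih =>
    simp only [List.map_cons, List.sum_cons]
    rw [ih]; abel

lemma Gam_word (hM : Mean (AddSubgroup.closure (T f)) M) {q : A × AddCircle (1 : ℝ)}
    (hq : q ∈ Gam f M) : ∃ l : List A, (∀ t ∈ l, t ∈ T f) ∧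
      q = (l.sum, (((l.map (psi f M)).sum : ℝ) : AddCircle (1 : ℝ))) := by
  unfold Gam at hq
  induction hq using AddSubgroup.closure_induction with
  | mem q hq =>
    obtain ⟨s, hs, rfl⟩ := hq
    exact ⟨[s], by simpa using hs, by simp⟩
  | zero => exact ⟨[], by simp, by simp; rfl⟩
  | add a b _ _ ha hb =>
    obtain ⟨l, hl, rfl⟩ := ha
    obtain ⟨m, hm, rfl⟩ := hb
    refine ⟨l ++ m, ?_, ?_⟩
    · intro t ht
      rcases List.mem_append.mp ht with h | h
      exacts [hl t h, hm t h]
    · simp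
  | neg a _ ha =>
    obtain ⟨l, hl, rfl⟩ := ha
    refine ⟨l.map (fun t => -t), ?_, ?_⟩
    · intro t ht
      obtain ⟨u, hu, rfl⟩ := List.mem_map.mp ht
      exact T_neg (hl u hu)
    · have hsum : (l.map (fun t => -t)).sum = -l.sum := sum_map_neg l
      have hw : ∃ k : ℤ, ((l ++ l.map (fun t => -t)).map (psi f M)).sum = k := by
        refine closed_word hM ?_ ?_
        · intro t ht
          rcases List.mem_append.mp ht with h | h
          · exact hl t h
          · obtain ⟨u, hu, rfl⟩ := List.mem_map.mp h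
            exact T_neg (hl u hu)
        · rw [List.sum_append, hsum]; abel
      obtain ⟨k, hk⟩ := hw
      rw [List.map_append, List.sum_append] at hk
      refine Prod.ext ?_ ?_
      · simp only [Prod.fst_neg]; rw [hsum]
      · simp only [Prod.snd_neg]
        rw [eq_comm, ← add_eq_zero_iff_eq_neg, add_comm, ← AddCircle.coe_add, hk]
        exact int_coe k

theorem core (hM : Mean (AddSubgroup.closure (T f)) M) :
    ∃ φ : A →+ AddCircle (1 : ℝ), ∀ s ∈ T f, ∃ t : ℝ, 1 / 3 ≤ t ∧ t ≤ 2 / 3 ∧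
      φ s = ((t : ℝ) : AddCircle (1 : ℝ)) := by
  have hinj : Function.Injective
      ((AddMonoidHom.fst A (AddCircle (1 : ℝ))).comp (Gam f M).subtype) := by
    rw [injective_iff_map_eq_zero]
    rintro ⟨q, hq⟩ h
    obtain ⟨l, hl, hql⟩ := Gam_word hM hq
    simp only [AddMonoidHom.comp_apply, AddSubgroup.subtype_apply, AddMonoidHom.coe_fst] at h
    have h0 : l.sum = 0 := by rw [hql] at h; exact h
    obtain ⟨k, hk⟩ := closed_word hM hl h0
    rw [hk, int_coe, h0] at hql
    exact Subtype.ext hql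
  obtain ⟨φ, hφ⟩ := (Module.Baer.of_divisible (AddCircle (1 : ℝ))).extension_property_addMonoidHom
    _ hinj ((AddMonoidHom.snd A (AddCircle (1 : ℝ))).comp (Gam f M).subtype)
  refine ⟨φ, fun s hs => ⟨psi f M s, (psi_mem hM s).1, (psi_mem hM s).2, ?_⟩⟩
  have hmem : (s, ((psi f M s : ℝ) : AddCircle (1 : ℝ))) ∈ Gam f M :=
    AddSubgroup.subset_closure ⟨s, hs, rfl⟩
  exact DFunLike.congr_fun hφ ⟨_, hmem⟩

end Pool.Agent.TH879.KZ
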