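import Pool.Agent.TH879.KZ.Core

set_option autoImplicit false

namespace Pool.Agent.TH879.KZ

open scoped Classical in
/-- the average over a finite subgroup -/
lemma mean_finite {A : Type*} [AddCommGroup A] (H : AddSubgroup A) [Fintype H] :
    Mean H (fun g => (∑ x : H, g x) / (Fintype.card H : ℝ)) := by
  have hpos : (0 : ℝ) < Fintype.card H := by
    exact_mod_cast Fintype.card_pos
  refine ⟨?_, ?_, ?_, ?_⟩
  · intro g h _ _
    simp only [Finset.sum_add_distrib, add_div]
  · intro g a h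
    have : ∑ x : H, g x = Fintype.card H * a := by
      rw [Finset.sum_congr rfl (fun (x : H) _ => h x x.2)]
      simp
    simp only [this]
    field_simp
  · intro g _ h hh
    congr 1
    exact Equiv.sum_comp (Equiv.addRight (⟨h, hh⟩ : H)) (fun x : H => g x)
  · intro g hg
    rw [abs_div, abs_of_pos hpos, div_le_one hpos]
    refine (Finset.abs_sum_le_sum_abs _ _).trans ?_
    refine (Finset.sum_le_sum (fun (x : H) _ => hg (x : A))).trans ?_
    simp

/-- nearest point: a colour for every third of the circle -/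
lemma color_of_char {A : Type*} [AddCommGroup A] (φ : A →+ AddCircle (1 : ℝ)) :
    ∃ f : A → Fin 3, ∀ s : A, (∃ t : ℝ, 1 / 3 ≤ t ∧ t ≤ 2 / 3 ∧
      φ s = ((t : ℝ) : AddCircle (1 : ℝ))) → ∀ x, f x ≠ f (x + s) := by
  have : Fact (0 < (1 : ℝ)) := ⟨one_pos⟩
  set ρ : A → ℝ := fun x => ((AddCircle.equivIco 1 0 (φ x) : Set.Ico (0 : ℝ) (0 + 1)) : ℝ) with hρ
  have h0 : ∀ x, 0 ≤ ρ x := fun x => (AddCircle.equivIco 1 0 (φ x)).2.1
  have h1 : ∀ x, ρ x < 1 := fun x => by
    have := (AddCircle.equivIco 1 0 (φ x)).2.2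
    simpa using this
  have h2 : ∀ x, ((ρ x : ℝ) : AddCircle (1 : ℝ)) = φ x := fun x =>
    AddCircle.coe_equivIco
  have hfl0 : ∀ x, 0 ≤ ⌊3 * ρ x⌋ := fun x => Int.floor_nonneg.mpr (by linarith [h0 x])
  have hfl3 : ∀ x, ⌊3 * ρ x⌋ < 3 := fun x => by
    rw [Int.floor_lt]; push_cast; linarith [h1 x]
  refine ⟨fun x => ⟨(⌊3 * ρ x⌋).toNat, by have := hfl0 x; have := hfl3 x; omega⟩, ?_⟩
  rintro s ⟨t, ht1, ht2, ht⟩ x h
  have hn : (⌊3 * ρ x⌋).toNat = (⌊3 * ρ (x + s)⌋).toNat := by simpa using congrArg Fin.val h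
  have hz : ⌊3 * ρ x⌋ = ⌊3 * ρ (x + s)⌋ := by
    have := hfl0 x; have := hfl0 (x + s); omega
  have ha := Int.floor_le (3 * ρ x)
  have hb := Int.lt_floor_add_one (3 * ρ x)
  have ha' := Int.floor_le (3 * ρ (x + s))
  have hb' := Int.lt_floor_add_one (3 * ρ (x + s))
  rw [← hz] at ha' hb'
  have hk : (((ρ (x + s) - ρ x - t : ℝ)) : AddCircle (1 : ℝ)) = 0 := by
    rw [AddCircle.coe_sub, AddCircle.coe_sub, h2, h2, ← ht, map_add]
    abel
  rw [AddCircle.coe_eq_zero_iff] at hk
  obtain ⟨n, hn⟩ := hk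
  have hn' : (n : ℝ) = ρ (x + s) - ρ x - t := by simpa using hn
  have hA : (n : ℝ) < 0 := by rw [hn']; linarith
  have hB : (-1 : ℝ) < n := by rw [hn']; linarith
  have hA' : n < 0 := by exact_mod_cast hA
  have hB' : -1 < n := by exact_mod_cast hB
  omega

/-- **3-colourable Cayley graphs of finite abelian groups.** -/
theorem finite_iff {A : Type*} [AddCommGroup A] [Finite A] (S : Set A) :
    (∃ f : A → Fin 3, ∀ x, ∀ s ∈ S, f x ≠ f (x + s)) ↔
      ∃ φ : A →+ AddCircle (1 : ℝ), ∀ s ∈ S, ∃ t : ℝ, 1 / 3 ≤ t ∧ t ≤ 2 / 3 ∧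
        φ s = ((t : ℝ) : AddCircle (1 : ℝ)) := by
  constructor
  · rintro ⟨f, hf⟩
    set g : A → ZMod 3 := f with hg
    have : Fintype (AddSubgroup.closure (T g)) := Fintype.ofFinite _
    obtain ⟨φ, hφ⟩ := core (mean_finite (AddSubgroup.closure (T g)))
    exact ⟨φ, fun s hs => hφ s (fun x => (hf x s hs).symm)⟩
  · rintro ⟨φ, hφ⟩
    obtain ⟨f, hf⟩ := color_of_char φ
    exact ⟨f, fun x s hs => hf s (hφ s hs) x⟩

/-- **3-colourable Cayley graphs on `(ℤ/m)^n`.** -/
theorem zmod_iff (m n : ℕ) [NeZero m] (S : Set (Fin n → ZMod m)) :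
    (∃ f : (Fin n → ZMod m) → Fin 3, ∀ x, ∀ s ∈ S, f x ≠ f (x + s)) ↔
      ∃ a : Fin n → ZMod m, ∀ s ∈ S,
        m ≤ 3 * (∑ i, a i * s i).val ∧ 3 * (∑ i, a i * s i).val ≤ 2 * m := by
  have hm : (0 : ℝ) < m := by exact_mod_cast Nat.pos_of_ne_zero (NeZero.ne m)
  have hval : ∀ y : ZMod m, y.val < m := fun y => ZMod.val_lt y
  -- the character attached to a vector
  have key : ∀ a : Fin n → ZMod m, ∃ φ : (Fin n → ZMod m) →+ AddCircle (1 : ℝ),
      ∀ x, φ x = ((((∑ i, a i * x i).val : ℝ) / m : ℝ) : AddCircle (1 : ℝ)) := by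
    intro a
    refine ⟨AddMonoidHom.mk' (fun x => ((((∑ i, a i * x i).val : ℝ) / m : ℝ) : AddCircle (1 : ℝ)))
      ?_, fun x => rfl⟩
    intro x y
    have h1 : ∑ i, a i * (x + y) i = ∑ i, a i * x i + ∑ i, a i * y i := by
      rw [← Finset.sum_add_distrib]
      exact Finset.sum_congr rfl (fun i _ => by simp [mul_add])
    rw [h1, ← AddCircle.coe_add, ← sub_eq_zero, ← AddCircle.coe_sub, AddCircle.coe_eq_zero_iff]
    set u := ∑ i, a i * x i
    set v := ∑ i, a i * y i
    have h2 : (m : ℤ) ∣ ((u + v).val : ℤ) - (u.val + v.val) := by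
      rw [← ZMod.intCast_zmod_eq_zero_iff_dvd]
      push_cast
      simp
    obtain ⟨k, hk⟩ := h2
    refine ⟨k, ?_⟩
    have hk' : ((u + v).val : ℝ) - (u.val + v.val) = m * k := by exact_mod_cast hk
    simp only [zsmul_eq_mul, mul_one]
    field_simp
    linarith
  constructor
  · intro h
    obtain ⟨φ, hφ⟩ := (finite_iff S).mp h
    -- values on the basis
    have hb : ∀ i : Fin n, ∃ k : ℤ, φ (Pi.single i 1) = (((k : ℝ) / m : ℝ) : AddCircle (1 : ℝ)) := by
      intro i
      obtain ⟨y, hy⟩ := QuotientAddGroup.mk_surjective (φ (Pi.single i 1))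
      have h1 : m • φ (Pi.single i (1 : ZMod m)) = 0 := by
        rw [← map_nsmul]
        have : m • (Pi.single i (1 : ZMod m) : Fin n → ZMod m) = 0 := by
          funext j; simp
        rw [this, map_zero]
      have h2 : (((m : ℝ) * y : ℝ) : AddCircle (1 : ℝ)) = 0 := by
        rw [← hy] at h1
        rw [← nsmul_eq_mul]
        exact h1
      rw [AddCircle.coe_eq_zero_iff] at h2
      obtain ⟨k, hk⟩ := h2
      refine ⟨k, ?_⟩
      have hk' : (k : ℝ) = m * y := by simpa using hk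
      rw [← hy, hk', mul_div_cancel_left₀ _ hm.ne']
    choose k hk using hb
    refine ⟨fun i => (k i : ZMod m), fun s hs => ?_⟩
    obtain ⟨φ', hφ'⟩ := key (fun i => (k i : ZMod m))
    have heq : φ' = φ := by
      refine AddMonoidHom.functions_ext _ _ _ (fun i x => ?_)
      have hx : (Pi.single i x : Fin n → ZMod m) = x.val • Pi.single i 1 := by
        funext j
        by_cases hj : j = i
        · subst hj; simp
        · simp [Pi.single_eq_of_ne hj]
      rw [hx, map_nsmul, map_nsmul]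
      congr 1
      rw [hφ', hk]
      have hs1 : ∑ j, (k j : ZMod m) * (Pi.single i (1 : ZMod m) : Fin n → ZMod m) j
          = (k i : ZMod m) := by
        simp [Pi.single_apply]
      rw [hs1, ← sub_eq_zero, ← AddCircle.coe_sub, AddCircle.coe_eq_zero_iff]
      have h2 : (m : ℤ) ∣ (((k i : ZMod m)).val : ℤ) - k i := by
        rw [← ZMod.intCast_zmod_eq_zero_iff_dvd]
        push_cast
        simp
      obtain ⟨q, hq⟩ := h2
      refine ⟨q, ?_⟩
      have hq' : (((k i : ZMod m)).val : ℝ) - k i = m * q := by exact_mod_cast hq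
      simp only [zsmul_eq_mul, mul_one]
      field_simp
      linarith
    obtain ⟨t, ht1, ht2, ht⟩ := hφ s hs
    rw [← heq, hφ', ← sub_eq_zero, ← AddCircle.coe_sub, AddCircle.coe_eq_zero_iff] at ht
    obtain ⟨q, hq⟩ := ht
    set w := (∑ i, (k i : ZMod m) * s i).val with hw
    have hw1 : (w : ℝ) / m < 1 := by
      rw [div_lt_one hm]; exact_mod_cast hval _
    have hw0 : (0 : ℝ) ≤ (w : ℝ) / m := by positivity
    have hq' : (q : ℝ) = (w : ℝ) / m - t := by simpa using hq
    have hA : (q : ℝ) < 1 := by rw [hq']; linarith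
    have hB : (-1 : ℝ) < q := by rw [hq']; linarith
    have hA' : q < 1 := by exact_mod_cast hA
    have hB' : -1 < q := by exact_mod_cast hB
    have hq0 : q = 0 := by omega
    rw [hq0] at hq'
    have htw : t = (w : ℝ) / m := by push_cast at hq'; linarith
    rw [htw] at ht1 ht2
    constructor
    · have : (m : ℝ) ≤ 3 * w := by
        rw [div_le_div_iff₀ (by norm_num) hm] at ht1; linarith
      exact_mod_cast this
    · have : (3 : ℝ) * w ≤ 2 * m := by
        rw [div_le_div_iff₀ hm (by norm_num)] at ht2; linarith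
      exact_mod_cast this
  · rintro ⟨a, ha⟩
    obtain ⟨φ, hφ⟩ := key a
    refine (finite_iff S).mpr ⟨φ, fun s hs => ⟨((∑ i, a i * s i).val : ℝ) / m, ?_, ?_, hφ s⟩⟩
    · rw [div_le_div_iff₀ (by norm_num) hm]
      have : ((m : ℕ) : ℝ) ≤ ((3 * (∑ i, a i * s i).val : ℕ) : ℝ) := by exact_mod_cast (ha s hs).1
      push_cast at this; linarith
    · rw [div_le_div_iff₀ hm (by norm_num)]
      have : ((3 * (∑ i, a i * s i).val : ℕ) : ℝ) ≤ ((2 * m : ℕ) : ℝ) := by
        exact_mod_cast (ha s hs).2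
      push_cast at this; linarith

end Pool.Agent.TH879.KZ
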