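import Pool.Agent.TH879.KZ.Mean

set_option autoImplicit false

namespace Pool.Agent.TH879.KZ

/-- distance to the nearest integer is at least `1/3` iff a translate by an integer lies in
`[1/3, 2/3]` -/
lemma round_iff (y : ℝ) : 1 / 3 ≤ |y - round y| ↔
    ∃ t : ℝ, 1 / 3 ≤ t ∧ t ≤ 2 / 3 ∧ ((y : ℝ) : AddCircle (1 : ℝ)) = (t : AddCircle (1 : ℝ)) := by
  constructor
  · intro h
    have h2 := abs_sub_round y
    rcases le_total 0 (y - round y) with h0 | h0
    · rw [abs_of_nonneg h0] at h h2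
      refine ⟨y - round y, h, by linarith, ?_⟩
      rw [← sub_eq_zero, ← AddCircle.coe_sub, AddCircle.coe_eq_zero_iff]
      exact ⟨round y, by simp⟩
    · rw [abs_of_nonpos h0] at h h2
      refine ⟨y - round y + 1, by linarith, by linarith, ?_⟩
      rw [← sub_eq_zero, ← AddCircle.coe_sub, AddCircle.coe_eq_zero_iff]
      exact ⟨round y - 1, by simp only [zsmul_eq_mul, mul_one]; push_cast; ring⟩
  · rintro ⟨t, h1, h2, h⟩
    rw [← sub_eq_zero, ← AddCircle.coe_sub, AddCircle.coe_eq_zero_iff] at h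
    obtain ⟨k, hk⟩ := h
    have hk' : (k : ℝ) = y - t := by simpa using hk
    have hy : y - round y = t + ((k - round y : ℤ) : ℝ) := by push_cast; linarith
    rw [hy]
    by_contra hc
    push Not at hc
    rw [abs_lt] at hc
    set q : ℤ := k - round y
    have hA : (q : ℝ) < 0 := by linarith [hc.2]
    have hB : (-1 : ℝ) < q := by linarith [hc.1]
    have hA' : q < 0 := by exact_mod_cast hA
    have hB' : -1 < q := by exact_mod_cast hB
    omega

/-- a homomorphism from `ℤ` to the circle is multiplication by a real number -/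
lemma hom_int (φ : ℤ →+ AddCircle (1 : ℝ)) : ∃ θ : ℝ, ∀ n : ℤ,
    φ n = ((θ * n : ℝ) : AddCircle (1 : ℝ)) := by
  obtain ⟨θ, hθ⟩ := QuotientAddGroup.mk_surjective (φ 1)
  refine ⟨θ, fun n => ?_⟩
  have h1 : φ n = n • φ 1 := by
    rw [← map_zsmul]; simp
  rw [h1, ← hθ, mul_comm]
  have : ((n : ℝ) * θ : ℝ) = n • θ := by simp
  rw [this]
  rfl

/-- the integers: one frequency -/
theorem int_iff (S : Set ℤ) :
    (∃ f : ℤ → Fin 3, ∀ x, ∀ s ∈ S, f x ≠ f (x + s)) ↔
      ∃ θ : ℝ, ∀ s ∈ S, 1 / 3 ≤ |θ * s - round (θ * s)| := by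
  rw [main_iff]
  constructor
  · rintro ⟨φ, hφ⟩
    obtain ⟨θ, hθ⟩ := hom_int φ
    refine ⟨θ, fun s hs => (round_iff _).mpr ?_⟩
    rw [← hθ]
    exact hφ s hs
  · rintro ⟨θ, hθ⟩
    refine ⟨(QuotientAddGroup.mk' (AddSubgroup.zmultiples (1 : ℝ))).comp
      ((AddMonoidHom.mulLeft θ).comp (Int.castAddHom ℝ)), fun s hs => ?_⟩
    exact (round_iff _).mp (hθ s hs)

/-- three translates of `B` cover the group: `B - B` contains a Bohr set of rank one -/
theorem three_translates {G : Type*} [AddCommGroup G] (B : Set G) (a b c : G)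
    (h : ∀ x, x - a ∈ B ∨ x - b ∈ B ∨ x - c ∈ B) :
    ∃ φ : G →+ AddCircle (1 : ℝ), ∀ g : G, (¬ ∃ t : ℝ, 1 / 3 ≤ t ∧ t ≤ 2 / 3 ∧
        φ g = ((t : ℝ) : AddCircle (1 : ℝ))) → ∃ u ∈ B, ∃ v ∈ B, g = u - v := by
  classical
  set S : Set G := {g | ¬ ∃ u ∈ B, ∃ v ∈ B, g = u - v} with hS
  have hcol : ∃ f : G → Fin 3, ∀ x, ∀ s ∈ S, f x ≠ f (x + s) := by
    refine ⟨fun x => if x - a ∈ B then 0 else if x - b ∈ B then 1 else 2, ?_⟩
    intro x s hs hxs
    refine hs ?_
    have hx := h x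
    have hy := h (x + s)
    by_cases h1 : x - a ∈ B
    · have h2 : x + s - a ∈ B := by
        by_contra hn
        simp only [h1, hn, if_true, if_false] at hxs
        split_ifs at hxs <;> simp at hxs
      exact ⟨x + s - a, h2, x - a, h1, by abel⟩
    · by_cases h2 : x + s - a ∈ B
      · simp only [h1, h2, if_true, if_false] at hxs
        split_ifs at hxs <;> simp at hxs
      · simp only [h1, h2, if_false] at hxs
        by_cases h3 : x - b ∈ B
        · have h4 : x + s - b ∈ B := by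
            by_contra hn
            simp [h3, hn] at hxs
          exact ⟨x + s - b, h4, x - b, h3, by abel⟩
        · have h4 : x + s - b ∉ B := by
            intro hn
            simp [h3, hn] at hxs
          have h5 : x - c ∈ B := by tauto
          have h6 : x + s - c ∈ B := by tauto
          exact ⟨x + s - c, h6, x - c, h5, by abel⟩
  obtain ⟨φ, hφ⟩ := (main_iff S).mp hcol
  refine ⟨φ, fun g hg => ?_⟩
  by_contra hc
  exact hg (hφ g hc)

theorem three_translates_int (B : Set ℤ) (a b c : ℤ)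
    (h : ∀ x, x - a ∈ B ∨ x - b ∈ B ∨ x - c ∈ B) :
    ∃ θ : ℝ, ∀ n : ℤ, |θ * n - round (θ * n)| < 1 / 3 → ∃ u ∈ B, ∃ v ∈ B, n = u - v := by
  obtain ⟨φ, hφ⟩ := three_translates B a b c h
  obtain ⟨θ, hθ⟩ := hom_int φ
  refine ⟨θ, fun n hn => hφ n ?_⟩
  rw [hθ, ← round_iff]
  exact not_le.mpr hn

/-- three translates of `U` cover the space: the return times contain a Bohr set of rank one -/
theorem return_times {X : Type*} [Nonempty X] (T : Equiv.Perm X) (U : Set X) (a b c : ℤ)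
    (h : ∀ x, (T ^ a) x ∈ U ∨ (T ^ b) x ∈ U ∨ (T ^ c) x ∈ U) :
    ∃ θ : ℝ, ∀ n : ℤ, |θ * n - round (θ * n)| < 1 / 3 → ∃ x ∈ U, (T ^ n) x ∈ U := by
  obtain ⟨x0⟩ := ‹Nonempty X›
  obtain ⟨θ, hθ⟩ := three_translates_int {n : ℤ | (T ^ n) x0 ∈ U} (-a) (-b) (-c) (by
    intro x
    have := h ((T ^ x) x0)
    simp only [← Equiv.Perm.mul_apply, ← zpow_add] at this
    simpa [Set.mem_setOf_eq, sub_neg_eq_add, add_comm] using this)
  refine ⟨θ, fun n hn => ?_⟩
  obtain ⟨u, hu, v, hv, huv⟩ := hθ n hn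
  refine ⟨(T ^ v) x0, hv, ?_⟩
  rw [← Equiv.Perm.mul_apply, ← zpow_add, huv, sub_add_cancel]
  exact hu

end Pool.Agent.TH879.KZ
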