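import Pool.Agent.TH879.KZ.Fin

set_option autoImplicit false

open Filter Topology

namespace Pool.Agent.TH879.KZ

variable {A : Type*} [AddCommGroup A]

/-- average over `0, h, …, N h` -/
noncomputable def av (N : ℕ) (h : A) (g : A → ℝ) : A → ℝ :=
  fun x => (∑ k ∈ Finset.range (N + 1), g (x + k • h)) / (N + 1)

/-- iterated average -/
noncomputable def O (N : ℕ) : List A → (A → ℝ) → (A → ℝ)
  | [], g => g
  | h :: l, g => O N l (av N h g)

lemma av_add (N : ℕ) (h : A) (g g' : A → ℝ) :
    av N h (fun x => g x + g' x) = fun x => av N h g x + av N h g' x := by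
  funext x; simp only [av, Finset.sum_add_distrib, add_div]

lemma av_bdd {N : ℕ} {h : A} {g : A → ℝ} {C : ℝ} (hg : ∀ x, |g x| ≤ C) (x : A) :
    |av N h g x| ≤ C := by
  have hp : (0 : ℝ) < N + 1 := by positivity
  unfold av
  rw [abs_div, abs_of_pos hp, div_le_iff₀ hp]
  refine (Finset.abs_sum_le_sum_abs _ _).trans ?_
  refine (Finset.sum_le_sum (fun k _ => hg (x + k • h))).trans ?_
  simp only [Finset.sum_const, Finset.card_range, nsmul_eq_mul]
  push_cast
  linarith

lemma av_const {N : ℕ} {H : AddSubgroup A} {h : A} (hh : h ∈ H) {g : A → ℝ} {a : ℝ}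
    (hg : ∀ x ∈ H, g x = a) (x : A) (hx : x ∈ H) : av N h g x = a := by
  have hp : (0 : ℝ) < N + 1 := by positivity
  unfold av
  rw [Finset.sum_congr rfl (fun k _ => hg _ (H.add_mem hx (H.nsmul_mem hh k)))]
  simp only [Finset.sum_const, Finset.card_range, nsmul_eq_mul]
  push_cast
  field_simp

lemma av_shift (N : ℕ) (h t : A) (g : A → ℝ) :
    av N h (fun x => g (x + t)) = fun x => av N h g (x + t) := by
  funext x
  simp only [av]
  congr 1
  exact Finset.sum_congr rfl (fun k _ => by rw [add_right_comm])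

lemma O_add (N : ℕ) (l : List A) : ∀ (g g' : A → ℝ),
    O N l (fun x => g x + g' x) = fun x => O N l g x + O N l g' x := by
  induction l with
  | nil => intro g g'; rfl
  | cons h l ih => intro g g'; simp only [O]; rw [av_add, ih]

lemma O_bdd (N : ℕ) (l : List A) : ∀ {g : A → ℝ} {C : ℝ}, (∀ x, |g x| ≤ C) → ∀ x,
    |O N l g x| ≤ C := by
  induction l with
  | nil => intro g C hg x; exact hg x
  | cons h l ih => intro g C hg x; exact ih (fun y => av_bdd hg y) x

lemma O_const (N : ℕ) {H : AddSubgroup A} (l : List A) : ∀ (_ : ∀ h ∈ l, h ∈ H) {g : A → ℝ}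
    {a : ℝ}, (∀ x ∈ H, g x = a) → ∀ x ∈ H, O N l g x = a := by
  induction l with
  | nil => intro _ g a hg x hx; exact hg x hx
  | cons h l ih =>
    intro hl g a hg x hx
    exact ih (fun t ht => hl t (by simp [ht])) (fun y hy => av_const (hl h (by simp)) hg y hy) x hx

lemma av_diff (N : ℕ) (h : A) {g : A → ℝ} {C : ℝ} (hg : ∀ x, |g x| ≤ C) (x : A) :
    |av N h (fun y => g (y + h) + -g y) x| ≤ 2 * C / (N + 1) := by
  have hp : (0 : ℝ) < N + 1 := by positivity
  have h1 : ∑ k ∈ Finset.range (N + 1), (g (x + k • h + h) + -g (x + k • h)) =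
      g (x + (N + 1) • h) - g x := by
    have := Finset.sum_range_sub (fun k => g (x + k • h)) (N + 1)
    simp only [zero_nsmul, add_zero] at this
    rw [← this]
    refine Finset.sum_congr rfl (fun k _ => ?_)
    rw [add_assoc, ← succ_nsmul]; ring
  unfold av
  rw [h1, abs_div, abs_of_pos hp]
  refine div_le_div_of_nonneg_right ?_ hp.le
  have := abs_sub (g (x + (N + 1) • h)) (g x)
  linarith [hg (x + (N + 1) • h), hg x]

lemma O_diff (N : ℕ) {t : A} (l : List A) : t ∈ l → ∀ {g : A → ℝ} {C : ℝ}, (∀ x, |g x| ≤ C) →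
    ∀ x, |O N l (fun y => g (y + t) + -g y) x| ≤ 2 * C / (N + 1) := by
  induction l with
  | nil => intro h; simp at h
  | cons h l ih =>
    intro ht g C hg x
    rcases List.mem_cons.mp ht with rfl | ht
    · exact O_bdd N l (fun y => av_diff N t hg y) x
    · have h1 : av N h (fun y => g (y + t) + -g y) = fun y => av N h g (y + t) + -av N h g y := by
        rw [av_add, av_shift]
        funext y
        simp only [av, Finset.sum_neg_distrib, neg_div]
      simp only [O]
      rw [h1]
      exact ih ht (fun y => av_bdd hg y) x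

/-- every subgroup of an abelian group carries an invariant mean -/
theorem exists_mean (H : AddSubgroup A) : ∃ M : (A → ℝ) → ℝ, Mean H M := by
  classical
  set F : Filter (Finset H × ℕ) := atTop with hF
  set U : Ultrafilter (Finset H × ℕ) := Ultrafilter.of F with hU
  have hUF : (U : Filter (Finset H × ℕ)) ≤ F := Ultrafilter.of_le F
  set w : (A → ℝ) → (Finset H × ℕ) → ℝ :=
    fun g i => O i.2 (i.1.toList.map (fun h : H => (h : A))) g 0 with hw
  have hmem : ∀ i : Finset H × ℕ, ∀ h ∈ i.1.toList.map (fun h : H => (h : A)), h ∈ H := by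
    intro i h hh
    obtain ⟨u, _, rfl⟩ := List.mem_map.mp hh
    exact u.2
  have hlim : ∀ g : A → ℝ, (∃ C, ∀ x, |g x| ≤ C) →
      Tendsto (w g) U (𝓝 (limUnder (U : Filter (Finset H × ℕ)) (w g))) := by
    rintro g ⟨C, hC⟩
    refine tendsto_nhds_limUnder ?_
    have hcomp : IsCompact (Set.Icc (-C) C) := isCompact_Icc
    have : (U.map (w g) : Filter ℝ) ≤ 𝓟 (Set.Icc (-C) C) := by
      rw [le_principal_iff]
      refine Filter.mem_map.mpr (Filter.univ_mem' (fun i => ?_))
      exact abs_le.mp (O_bdd i.2 _ hC 0)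
    obtain ⟨a, _, ha⟩ := hcomp.ultrafilter_le_nhds (U.map (w g)) this
    exact ⟨a, ha⟩
  refine ⟨fun g => limUnder (U : Filter (Finset H × ℕ)) (w g), ?_, ?_, ?_, ?_⟩
  · intro g h hg hh
    have h1 : w (fun x => g x + h x) = fun i => w g i + w h i := by
      funext i
      exact congrFun (O_add i.2 _ g h) 0
    show limUnder (U : Filter (Finset H × ℕ)) (w (fun x => g x + h x)) = _
    rw [h1]
    exact ((hlim g hg).add (hlim h hh)).limUnder_eq
  · intro g a hg
    have h1 : w g = fun _ => a := by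
      funext i
      exact O_const i.2 _ (hmem i) hg 0 H.zero_mem
    show limUnder (U : Filter (Finset H × ℕ)) (w g) = _
    rw [h1]
    exact tendsto_const_nhds.limUnder_eq
  · rintro g ⟨C, hC⟩ h hh
    show limUnder (U : Filter (Finset H × ℕ)) (w (fun x => g (x + h))) = _
    have hsh : ∃ C, ∀ x, |g (x + h)| ≤ C := ⟨C, fun x => hC _⟩
    have hng : ∃ C, ∀ x, |-g x| ≤ C := ⟨C, fun x => by rw [abs_neg]; exact hC x⟩
    have h1 : ∀ i, w (fun x => g (x + h) + -g x) i = w (fun x => g (x + h)) i + w (fun x => -g x) i :=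
      fun i => congrFun (O_add i.2 _ _ _) 0
    have h2 : ∀ i, w g i + w (fun x => -g x) i = 0 := by
      intro i
      have := congrFun (O_add i.2 (i.1.toList.map (fun h : H => (h : A))) g (fun x => -g x)) 0
      have h3 : O i.2 (i.1.toList.map (fun h : H => (h : A))) (fun x => g x + -g x) 0 = 0 :=
        O_const i.2 (H := H) _ (hmem i) (fun x _ => by ring) 0 H.zero_mem
      rw [h3] at this
      exact this.symm
    have h4 : Tendsto (fun i => w (fun x => g (x + h)) i - w g i) U (𝓝 0) := by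
      refine squeeze_zero_norm' (a := fun i : Finset H × ℕ => 2 * C / ((i.2 : ℝ) + 1)) ?_ ?_
      · have : ∀ᶠ i in F, (({(⟨h, hh⟩ : H)} : Finset H), 0) ≤ i := eventually_ge_atTop _
        filter_upwards [hUF this] with i hi
        have hin : h ∈ i.1.toList.map (fun h : H => (h : A)) := by
          refine List.mem_map.mpr ⟨⟨h, hh⟩, ?_, rfl⟩
          rw [Finset.mem_toList]
          exact hi.1 (Finset.mem_singleton_self _)
        have := O_diff i.2 _ hin hC 0
        rw [Real.norm_eq_abs]
        have h5 : w (fun x => g (x + h)) i - w g i = w (fun x => g (x + h) + -g x) i := by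
          rw [h1]; linarith [h2 i]
        rw [h5]
        exact this
      · have h6 : Tendsto (fun i : Finset H × ℕ => i.2) F atTop := by
          rw [hF, ← prod_atTop_atTop_eq]; exact tendsto_snd
        have h7 : Tendsto (fun n : ℕ => 2 * C / ((n : ℝ) + 1)) atTop (𝓝 0) := by
          have := (tendsto_one_div_add_atTop_nhds_zero_nat (𝕜 := ℝ)).const_mul (2 * C)
          simpa [div_eq_mul_inv] using this
        exact (h7.comp h6).mono_left hUF
    have h8 := h4.add (hlim g ⟨C, hC⟩)
    rw [zero_add] at h8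
    refine (h8.congr (fun i => ?_)).limUnder_eq
    ring
  · intro g hg
    have hl := hlim g ⟨1, hg⟩
    have : ∀ i, w g i ∈ Set.Icc (-1 : ℝ) 1 := fun i => abs_le.mp (O_bdd i.2 _ hg 0)
    exact abs_le.mpr (isClosed_Icc.mem_of_tendsto hl (Filter.Eventually.of_forall this))

/-- **3-colourable Cayley graphs of abelian groups.** -/
theorem main_iff (S : Set A) :
    (∃ f : A → Fin 3, ∀ x, ∀ s ∈ S, f x ≠ f (x + s)) ↔
      ∃ φ : A →+ AddCircle (1 : ℝ), ∀ s ∈ S, ∃ t : ℝ, 1 / 3 ≤ t ∧ t ≤ 2 / 3 ∧
        φ s = ((t : ℝ) : AddCircle (1 : ℝ)) := by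
  constructor
  · rintro ⟨f, hf⟩
    set g : A → ZMod 3 := f with hg
    obtain ⟨M, hM⟩ := exists_mean (AddSubgroup.closure (T g))
    obtain ⟨φ, hφ⟩ := core hM
    exact ⟨φ, fun s hs => hφ s (fun x => (hf x s hs).symm)⟩
  · rintro ⟨φ, hφ⟩
    obtain ⟨f, hf⟩ := color_of_char φ
    exact ⟨f, fun x s hs => hf s (hφ s hs) x⟩

end Pool.Agent.TH879.KZ
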